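import Pool.Agent.D0H89.OF.Stm

set_option autoImplicit false

/-!
# Project OF: sets of density one
-/

namespace Pool.Agent.D0H98.OF

open Pool.Agent.D0H89.OF Filter Topology

theorem t_DENS : S_DENS := by
  intro P _ nm d hnm hsum B hB
  have hpos : ∀ (x : P) (s : ℝ), 0 < (nm x) ^ (-s) := fun x s =>
    Real.rpow_pos_of_pos (by linarith [hnm x]) _
  have htot : ∀ s : ℝ, d < s → 0 < ∑' x, (nm x) ^ (-s) := fun s hs =>
    (hsum s hs).tsum_pos (fun x => (hpos x s).le) (Classical.arbitrary P) (hpos _ _)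
  have hsub : ∀ (S : Set P) (s : ℝ), d < s → Summable fun x : S => (nm x) ^ (-s) := fun S s hs =>
    (hsum s hs).subtype S
  have hsplit : ∀ s : ℝ, d < s → (∑' x : B, (nm x) ^ (-s)) + ∑' x : (Bᶜ : Set P), (nm x) ^ (-s) =
      ∑' x, (nm x) ^ (-s) := fun s hs =>
    Summable.tsum_add_tsum_compl (f := fun x => (nm x) ^ (-s)) (s := B) (hsub B s hs)
      (hsub Bᶜ s hs)
  have hle : ∀ (C : Set P), B ⊆ C → ∀ s : ℝ, d < s →
      (∑' x : B, (nm x) ^ (-s)) ≤ ∑' x : C, (nm x) ^ (-s) := by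
    intro C hC s hs
    exact (hsub B s hs).tsum_le_tsum_of_inj (Set.inclusion hC) (Set.inclusion_injective hC)
      (fun c _ => (hpos _ s).le) (fun x => le_rfl) (hsub C s hs)
  have h0 : Tendsto (fun s : ℝ => (∑' x : B, (nm x) ^ (-s)) / ∑' x, (nm x) ^ (-s))
      (nhdsWithin d (Set.Ioi d)) (nhds 0) := by
    rw [tendsto_order]
    constructor
    · intro a ha
      filter_upwards [self_mem_nhdsWithin] with s hs
      exact lt_of_lt_of_le ha (div_nonneg (tsum_nonneg fun x => (hpos _ s).le) (htot s hs).le)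
    · intro ε hε
      obtain ⟨C, δ, hBC, hδ, hC⟩ := hB ε hε
      filter_upwards [self_mem_nhdsWithin, hC.eventually (gt_mem_nhds hδ)] with s hs h1
      exact lt_of_le_of_lt (div_le_div_of_nonneg_right (hle C hBC s hs) (htot s hs).le) h1
  have h1 : Tendsto (fun s : ℝ => 1 - (∑' x : B, (nm x) ^ (-s)) / ∑' x, (nm x) ^ (-s))
      (nhdsWithin d (Set.Ioi d)) (nhds (1 - 0)) := h0.const_sub 1
  rw [sub_zero] at h1
  refine h1.congr' ?_
  filter_upwards [self_mem_nhdsWithin] with s hs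
  have h2 := hsplit s hs
  have h3 := htot s hs
  rw [eq_div_iff h3.ne', sub_mul, one_mul, div_mul_cancel₀ _ h3.ne']
  linarith

end Pool.Agent.D0H98.OF
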