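import Pool.Agent.D0H89.OF.Stm

set_option autoImplicit false

/-!
# Project OF: semisimplicity of a representation from one semisimple element
-/

namespace Pool.Agent.D0H98.OF

open Pool.Agent.D0H89.OF Matrix

section

variable {ι K : Type} [Fintype ι] [DecidableEq ι] [Field K]

/-- `p` is a projector onto `W` -/
def IsPr (W : Submodule K (ι → K)) (p : Matrix ι ι K) : Prop :=
  (∀ v, p *ᵥ v ∈ W) ∧ ∀ w ∈ W, p *ᵥ w = w

theorem mat_ext {A B : Matrix ι ι K} (h : ∀ v, A *ᵥ v = B *ᵥ v) : A = B :=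
  Matrix.toLin'.injective (LinearMap.ext fun v => by
    rw [Matrix.toLin'_apply, Matrix.toLin'_apply]
    exact h v)

theorem exists_proj {S : Set (Matrix ι ι K)} {W W' : Submodule K (ι → K)} (hS : Stable S W)
    (hS' : Stable S W') (h : IsCompl W W') :
    ∃ p, IsPr W p ∧ ∀ A ∈ S, A * p = p * A := by
  have e1 : ∀ v, LinearMap.toMatrix' (W.projection W' h) *ᵥ v = W.projection W' h v := fun v => by
    rw [LinearMap.toMatrix'_mulVec]
  refine ⟨LinearMap.toMatrix' (W.projection W' h), ⟨fun v => ?_, fun w hw => ?_⟩, fun A hA => ?_⟩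
  · rw [e1]
    exact Submodule.projection_apply_mem h v
  · rw [e1]
    exact Submodule.projection_apply_of_mem_left h hw
  · apply mat_ext
    intro v
    rw [← mulVec_mulVec, ← mulVec_mulVec, e1, e1]
    have h1 : v = W.projection W' h v + (v - W.projection W' h v) := by abel
    have h2 : v - W.projection W' h v ∈ W' := Submodule.sub_projection_mem h v
    have h3 : A *ᵥ v = A *ᵥ (W.projection W' h v) + A *ᵥ (v - W.projection W' h v) := by
      rw [← mulVec_add, ← h1]
    rw [h3, map_add, Submodule.projection_apply_of_mem_left h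
      (hS A hA _ (Submodule.projection_apply_mem h v)),
      Submodule.projection_apply_of_mem_right h (hS' A hA _ h2), add_zero]

theorem mem_kerL {p : Matrix ι ι K} {v : ι → K} :
    v ∈ LinearMap.ker (Matrix.toLin' p) ↔ p *ᵥ v = 0 := by
  rw [LinearMap.mem_ker, Matrix.toLin'_apply]

theorem isCompl_ker {W : Submodule K (ι → K)} {p : Matrix ι ι K} (hp : IsPr W p) :
    IsCompl W (LinearMap.ker (Matrix.toLin' p)) := by
  constructor
  · rw [Submodule.disjoint_def]
    intro x hx hx'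
    rw [mem_kerL] at hx'
    rw [← hp.2 x hx, hx']
  · rw [codisjoint_iff, eq_top_iff]
    intro v _
    have h1 : v = p *ᵥ v + (v - p *ᵥ v) := by abel
    rw [h1]
    refine Submodule.add_mem_sup (hp.1 v) ?_
    rw [mem_kerL, mulVec_sub, hp.2 _ (hp.1 v), sub_self]

theorem stable_ker {p A : Matrix ι ι K} (h : A * p = p * A) {v : ι → K}
    (hv : v ∈ LinearMap.ker (Matrix.toLin' p)) : A *ᵥ v ∈ LinearMap.ker (Matrix.toLin' p) := by
  rw [mem_kerL] at hv ⊢
  rw [mulVec_mulVec, ← h, ← mulVec_mulVec, hv, mulVec_zero]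

theorem commute_of_stable {S : Set (Matrix ι ι K)} {W : Submodule K (ι → K)} {p : Matrix ι ι K}
    (hp : IsPr W p) (hS : Stable S W) (hS' : Stable S (LinearMap.ker (Matrix.toLin' p)))
    {A : Matrix ι ι K} (hA : A ∈ S) : A * p = p * A := by
  apply mat_ext
  intro v
  rw [← mulVec_mulVec, ← mulVec_mulVec]
  have h1 : v = p *ᵥ v + (v - p *ᵥ v) := by abel
  have h2 : v - p *ᵥ v ∈ LinearMap.ker (Matrix.toLin' p) := by
    rw [mem_kerL, mulVec_sub, hp.2 _ (hp.1 v), sub_self]
  have h3 : A *ᵥ v = A *ᵥ (p *ᵥ v) + A *ᵥ (v - p *ᵥ v) := by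
    rw [← mulVec_add, ← h1]
  rw [h3, mulVec_add, hp.2 _ (hS A hA _ (hp.1 v)), mem_kerL.1 (hS' A hA _ h2), add_zero]

/-- the inverse has the same invariant subspaces -/
theorem invt_inv {V : Type} [AddCommGroup V] [Module K V] [FiniteDimensional K V]
    {f f' : Module.End K V} (h' : f' * f = 1) {p : Submodule K V}
    (hp : p ∈ Module.End.invtSubmodule f) : p ∈ Module.End.invtSubmodule f' := by
  have hinj : Function.Injective f := by
    intro x y hxy
    have h1 : (f' * f) x = (f' * f) y := by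
      rw [Module.End.mul_apply, Module.End.mul_apply, hxy]
    rwa [h'] at h1
  have hle : p.map f ≤ p := by
    rw [Submodule.map_le_iff_le_comap]
    exact hp
  have heq : p.map f = p := by
    apply Submodule.eq_of_le_of_finrank_eq hle
    exact (Submodule.equivMapOfInjective f hinj p).finrank_eq.symm
  intro x hx
  rw [Submodule.mem_comap]
  rw [← heq] at hx
  obtain ⟨y, hy, rfl⟩ := hx
  have h1 : (f' * f) y = y := by rw [h']; rfl
  rw [Module.End.mul_apply] at h1
  rw [h1]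
  exact hy

theorem ss_inv {V : Type} [AddCommGroup V] [Module K V] [FiniteDimensional K V]
    {f f' : Module.End K V} (h : f * f' = 1) (h' : f' * f = 1) (hf : f.IsSemisimple) :
    f'.IsSemisimple := by
  rw [Module.End.isSemisimple_iff] at hf ⊢
  intro p hp
  obtain ⟨q, hq, hc⟩ := hf p (invt_inv h hp)
  exact ⟨q, invt_inv h' hq, hc⟩

theorem aeval_left (A : Matrix ι ι K) (f : Polynomial K) (X : Matrix ι ι K) :
    Polynomial.aeval (LinearMap.mulLeft K A) f X = Polynomial.aeval A f * X := by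
  rw [Polynomial.aeval_eq_sum_range, Polynomial.aeval_eq_sum_range, LinearMap.sum_apply,
    Finset.sum_mul]
  refine Finset.sum_congr rfl fun i _ => ?_
  rw [LinearMap.smul_apply, LinearMap.pow_mulLeft, LinearMap.mulLeft_apply, smul_mul_assoc]

theorem aeval_right (A : Matrix ι ι K) (f : Polynomial K) (X : Matrix ι ι K) :
    Polynomial.aeval (LinearMap.mulRight K A) f X = X * Polynomial.aeval A f := by
  rw [Polynomial.aeval_eq_sum_range, Polynomial.aeval_eq_sum_range, LinearMap.sum_apply,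
    Finset.mul_sum]
  refine Finset.sum_congr rfl fun i _ => ?_
  rw [LinearMap.smul_apply, LinearMap.pow_mulRight, LinearMap.mulRight_apply, mul_smul_comm]

theorem exists_pol {A : Matrix ι ι K} (hA : IsSS A) :
    ∃ f : Polynomial K, Squarefree f ∧ Polynomial.aeval A f = 0 := by
  refine ⟨minpoly K (Matrix.toLin' A), hA.minpoly_squarefree, ?_⟩
  have h1 : Matrix.toLinAlgEquiv' (Polynomial.aeval A (minpoly K (Matrix.toLin' A))) =
      Polynomial.aeval (Matrix.toLin' A) (minpoly K (Matrix.toLin' A)) := by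
    rw [← AlgEquiv.coe_toAlgHom, ← Polynomial.aeval_algHom_apply]
    rfl
  rw [minpoly.aeval] at h1
  exact Matrix.toLinAlgEquiv'.injective (by rw [h1, map_zero])

theorem ss_conj [PerfectField K] {A A' : Matrix ι ι K} (hA : IsSS A) (h : A * A' = 1)
    (h' : A' * A = 1) :
    Module.End.IsSemisimple (LinearMap.mulLeft K A * LinearMap.mulRight K A') := by
  obtain ⟨f, hf, hf'⟩ := exists_pol hA
  have h1 : Module.End.IsSemisimple (LinearMap.mulLeft K A) := by
    apply Module.End.isSemisimple_of_squarefree_aeval_eq_zero hf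
    refine LinearMap.ext fun X => ?_
    rw [aeval_left, hf', zero_mul, LinearMap.zero_apply]
  have h2 : Module.End.IsSemisimple (LinearMap.mulRight K A) := by
    apply Module.End.isSemisimple_of_squarefree_aeval_eq_zero hf
    refine LinearMap.ext fun X => ?_
    rw [aeval_right, hf', mul_zero, LinearMap.zero_apply]
  have h3 : Module.End.IsSemisimple (LinearMap.mulRight K A') := by
    refine ss_inv (f := LinearMap.mulRight K A) ?_ ?_ h2
    · refine LinearMap.ext fun X => ?_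
      rw [Module.End.mul_apply, LinearMap.mulRight_apply, LinearMap.mulRight_apply, mul_assoc, h',
        mul_one]
      rfl
    · refine LinearMap.ext fun X => ?_
      rw [Module.End.mul_apply, LinearMap.mulRight_apply, LinearMap.mulRight_apply, mul_assoc, h,
        mul_one]
      rfl
  refine Module.End.IsSemisimple.mul_of_commute ?_ h1 h3
  refine LinearMap.ext fun X => ?_
  rw [Module.End.mul_apply, Module.End.mul_apply, LinearMap.mulRight_apply,
    LinearMap.mulRight_apply, LinearMap.mulLeft_apply, LinearMap.mulLeft_apply, mul_assoc]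

end

/-- **ONE** -/
theorem t_ONE : S_ONE := by
  intro ι K G _ _ _ _ _ _ ρ Nn H g hN hH hSemi hSS hst W hW
  have hWx : ∀ x : G, ∀ w ∈ W, ρ x *ᵥ w ∈ W := fun x w hw => hW _ ⟨x, rfl⟩ w hw
  have hinv : ∀ x : G, ρ x * ρ x⁻¹ = 1 := fun x => by rw [← map_mul, mul_inv_cancel, map_one]
  have hinv' : ∀ x : G, ρ x⁻¹ * ρ x = 1 := fun x => by rw [← map_mul, inv_mul_cancel, map_one]
  have hstab : ∀ S : Set G, Stable (ρ '' S) W := by
    rintro S _ ⟨x, -, rfl⟩ w hw
    exact hWx x w hw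
  obtain ⟨W', hW', hc⟩ := hSemi W (hstab _)
  obtain ⟨p₀, hp₀, hcomm₀⟩ := exists_proj (hstab _) hW' hc
  let PP : Submodule K (Matrix ι ι K) :=
    { carrier := {p | (∀ n ∈ Nn, ρ n * p = p * ρ n) ∧ ∀ v, p *ᵥ v ∈ W}
      add_mem' := by
        rintro a b ⟨h1, h2⟩ ⟨h3, h4⟩
        refine ⟨fun n hn => ?_, fun v => ?_⟩
        · rw [mul_add, add_mul, h1 n hn, h3 n hn]
        · rw [add_mulVec]
          exact W.add_mem (h2 v) (h4 v)
      zero_mem' := ⟨fun n _ => by rw [mul_zero, zero_mul], fun v => by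
        rw [zero_mulVec]; exact W.zero_mem⟩
      smul_mem' := by
        rintro c a ⟨h1, h2⟩
        refine ⟨fun n hn => ?_, fun v => ?_⟩
        · rw [mul_smul_comm, smul_mul_assoc, h1 n hn]
        · rw [smul_mulVec]
          exact W.smul_mem c (h2 v) }
  let KK : Submodule K (Matrix ι ι K) :=
    { carrier := {p | p ∈ PP ∧ ∀ w ∈ W, p *ᵥ w = 0}
      add_mem' := by
        rintro a b ⟨h1, h2⟩ ⟨h3, h4⟩
        refine ⟨PP.add_mem h1 h3, fun w hw => ?_⟩
        rw [add_mulVec, h2 w hw, h4 w hw, add_zero]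
      zero_mem' := ⟨PP.zero_mem, fun w _ => by rw [zero_mulVec]⟩
      smul_mem' := by
        rintro c a ⟨h1, h2⟩
        refine ⟨PP.smul_mem c h1, fun w hw => ?_⟩
        rw [smul_mulVec, h2 w hw, smul_zero] }
  set T : Module.End K (Matrix ι ι K) :=
    LinearMap.mulLeft K (ρ g) * LinearMap.mulRight K (ρ g⁻¹) with hTdef
  have hTa : ∀ p, T p = ρ g * (p * ρ g⁻¹) := fun p => rfl
  have hT : T.IsSemisimple := ss_conj hSS (hinv g) (hinv' g)
  have hTv : ∀ p v, T p *ᵥ v = ρ g *ᵥ (p *ᵥ (ρ g⁻¹ *ᵥ v)) := by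
    intro p v
    rw [hTa, mulVec_mulVec, mulVec_mulVec, mul_assoc]
  have hTP : ∀ p ∈ PP, T p ∈ PP := by
    rintro p ⟨h1, h2⟩
    refine ⟨fun n hn => ?_, fun v => ?_⟩
    · have hn' : g⁻¹ * n * g ∈ Nn := by
        have := hN.conj_mem n hn g⁻¹
        rwa [inv_inv] at this
      have e1 : ρ n * ρ g = ρ g * ρ (g⁻¹ * n * g) := by
        rw [← map_mul, ← map_mul]
        congr 1
        group
      have e2 : ρ (g⁻¹ * n * g) * ρ g⁻¹ = ρ g⁻¹ * ρ n := by
        rw [← map_mul, ← map_mul]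
        congr 1
        group
      rw [hTa, ← mul_assoc, e1, mul_assoc (ρ g) (ρ (g⁻¹ * n * g)), ← mul_assoc _ p, h1 _ hn',
        mul_assoc p, e2]
      simp only [mul_assoc]
    · rw [hTv]
      exact hWx g _ (h2 _)
  have hTK : ∀ p ∈ KK, T p ∈ KK := by
    rintro p ⟨h1, h2⟩
    refine ⟨hTP p h1, fun w hw => ?_⟩
    rw [hTv, h2 _ (hWx g⁻¹ w hw), mulVec_zero]
  obtain ⟨L, hL, hcompl⟩ := (Module.End.isSemisimple_iff.1 hT) KK (fun p hp => hTK p hp)
  have hp₀P : p₀ ∈ PP := ⟨fun n hn => hcomm₀ _ ⟨n, hn, rfl⟩, hp₀.1⟩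
  obtain ⟨k, hk, l, hl, hkl⟩ : ∃ k ∈ KK, ∃ l ∈ L, k + l = p₀ := by
    have h1 : p₀ ∈ KK ⊔ L := by rw [hcompl.sup_eq_top]; exact Submodule.mem_top
    exact Submodule.mem_sup.1 h1
  have hl' : l = p₀ - k := by rw [← hkl]; abel
  have hT0 : T p₀ - p₀ ∈ KK := by
    refine ⟨PP.sub_mem (hTP _ hp₀P) hp₀P, fun w hw => ?_⟩
    rw [sub_mulVec, hTv, hp₀.2 _ (hWx g⁻¹ w hw), hp₀.2 w hw, mulVec_mulVec, hinv, one_mulVec,
      sub_self]
  have hTl : T l = l := by
    have h1 : T l - l ∈ KK := by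
      have e1 : T l - l = (T p₀ - p₀) - (T k - k) := by
        rw [hl', map_sub]
        abel
      rw [e1]
      exact KK.sub_mem hT0 (KK.sub_mem (hTK k hk) hk)
    have h2 : T l - l ∈ L := L.sub_mem (hL hl) hl
    have h3 := (Submodule.disjoint_def.1 hcompl.disjoint) _ h1 h2
    exact sub_eq_zero.1 h3
  have hlP : l ∈ PP := by
    rw [hl']
    exact PP.sub_mem hp₀P hk.1
  have hlpr : IsPr W l := by
    refine ⟨hlP.2, fun w hw => ?_⟩
    rw [hl', sub_mulVec, hk.2 w hw, hp₀.2 w hw, sub_zero]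
  have hlg : ρ g * l = l * ρ g := by
    have h1 : ρ g * (l * ρ g⁻¹) * ρ g = l * ρ g := by rw [← hTa, hTl]
    rwa [mul_assoc, mul_assoc, hinv', mul_one] at h1
  have hlg' : ρ g⁻¹ * l = l * ρ g⁻¹ := by
    have h1 : ρ g⁻¹ * (ρ g * (l * ρ g⁻¹)) = ρ g⁻¹ * l := by rw [← hTa, hTl]
    rw [← mul_assoc, hinv', one_mul] at h1
    exact h1.symm
  have hkerH : Stable (ρ '' (H : Set G)) (LinearMap.ker (Matrix.toLin' l)) := by
    apply hst
    · rintro _ ⟨n, hn, rfl⟩ w hw
      exact stable_ker (hlP.1 n hn) hw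
    · rintro A hA w hw
      rcases hA with rfl | hA
      · exact stable_ker hlg hw
      · rw [Set.mem_singleton_iff] at hA
        subst hA
        exact stable_ker hlg' hw
  have hlH : ∀ h ∈ H, ρ h * l = l * ρ h := fun h hh =>
    commute_of_stable hlpr (hstab _) hkerH ⟨h, hh, rfl⟩
  -- the average
  have hfin : Finite (G ⧸ H) := inferInstance
  have hft : Fintype (G ⧸ H) := Fintype.ofFinite _
  let F : G ⧸ H → Matrix ι ι K := fun c => ρ c.out * l * ρ c.out⁻¹
  have hF : ∀ x : G, F (QuotientGroup.mk x) = ρ x * l * ρ x⁻¹ := by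
    intro x
    obtain ⟨h, hh⟩ := QuotientGroup.mk_out_eq_mul H x
    show ρ (QuotientGroup.mk x : G ⧸ H).out * l * ρ (QuotientGroup.mk x : G ⧸ H).out⁻¹ = _
    rw [hh, map_mul, _root_.mul_inv_rev, map_mul, mul_assoc (ρ x) (ρ h), hlH h.1 h.2, mul_assoc, mul_assoc,
      mul_assoc, ← mul_assoc (ρ (h : G)), hinv, one_mul]
  have hcard : (Fintype.card (G ⧸ H) : K) ≠ 0 := by
    have : Nonempty (G ⧸ H) := ⟨QuotientGroup.mk 1⟩
    exact_mod_cast Fintype.card_ne_zero
  let q : Matrix ι ι K := (Fintype.card (G ⧸ H) : K)⁻¹ • ∑ c, F c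
  have hFpr : ∀ c, IsPr W (F c) := by
    intro c
    refine ⟨fun v => ?_, fun w hw => ?_⟩
    · show (ρ c.out * l * ρ c.out⁻¹) *ᵥ v ∈ W
      rw [← mulVec_mulVec, ← mulVec_mulVec]
      exact hWx _ _ (hlpr.1 _)
    · show (ρ c.out * l * ρ c.out⁻¹) *ᵥ w = w
      rw [← mulVec_mulVec, ← mulVec_mulVec, hlpr.2 _ (hWx _ w hw), mulVec_mulVec, hinv, one_mulVec]
  have hqpr : IsPr W q := by
    refine ⟨fun v => ?_, fun w hw => ?_⟩
    · show ((Fintype.card (G ⧸ H) : K)⁻¹ • ∑ c, F c) *ᵥ v ∈ W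
      rw [smul_mulVec, sum_mulVec]
      exact W.smul_mem _ (W.sum_mem fun c _ => (hFpr c).1 v)
    · show ((Fintype.card (G ⧸ H) : K)⁻¹ • ∑ c, F c) *ᵥ w = w
      rw [smul_mulVec, sum_mulVec, Finset.sum_congr rfl fun c _ => (hFpr c).2 w hw,
        Finset.sum_const, Finset.card_univ, ← Nat.cast_smul_eq_nsmul K, smul_smul,
        inv_mul_cancel₀ hcard, one_smul]
  have hqcomm : ∀ y : G, ρ y * q = q * ρ y := by
    intro y
    show ρ y * ((Fintype.card (G ⧸ H) : K)⁻¹ • ∑ c, F c) =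
      ((Fintype.card (G ⧸ H) : K)⁻¹ • ∑ c, F c) * ρ y
    rw [mul_smul_comm, smul_mul_assoc, Finset.mul_sum]
    congr 1
    have e1 : ∀ c : G ⧸ H, ρ y * F c = F (y • c) * ρ y := by
      intro c
      obtain ⟨x, rfl⟩ := QuotientGroup.mk_surjective c
      have e2 : y • (QuotientGroup.mk x : G ⧸ H) = QuotientGroup.mk (y * x) := rfl
      rw [e2, hF, hF, _root_.mul_inv_rev, map_mul, map_mul]
      simp only [mul_assoc]
      rw [hinv', mul_one]
    rw [Finset.sum_congr rfl fun c _ => e1 c, ← Finset.sum_mul]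
    congr 1
    exact (MulAction.bijective y).sum_comp F
  refine ⟨LinearMap.ker (Matrix.toLin' q), ?_, isCompl_ker hqpr⟩
  rintro _ ⟨y, rfl⟩ w hw
  exact stable_ker (hqcomm y) hw

end Pool.Agent.D0H98.OF
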