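import Pool.Agent.D0H89.OF.Stm3
import Pool.Agent.D0H98.OF.One

set_option autoImplicit false

/-!
# Project OF: semisimplicity of a representation, second version; the trace form on a centralizer
-/

namespace Pool.Agent.D0H98.OF

open Pool.Agent.D0H89.OF Matrix

/-- **ONE2** -/
theorem t_ONE2 : S_ONE2 := by
  intro ι K G _ _ _ _ _ _ ρ Nn g s s' hN hSemi hss hSS hTs hst W hW
  have hWx : ∀ x : G, ∀ w ∈ W, ρ x *ᵥ w ∈ W := fun x w hw => hW _ ⟨x, rfl⟩ w hw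
  have hinv : ∀ x : G, ρ x * ρ x⁻¹ = 1 := fun x => by rw [← map_mul, mul_inv_cancel, map_one]
  have hinv' : ∀ x : G, ρ x⁻¹ * ρ x = 1 := fun x => by rw [← map_mul, inv_mul_cancel, map_one]
  have hstab : ∀ S : Set G, Stable (ρ '' S) W := by
    rintro S _ ⟨x, -, rfl⟩ w hw
    exact hWx x w hw
  obtain ⟨W', hW', hc⟩ := hSemi W (hstab _)
  obtain ⟨p₀, hp₀, hcomm₀⟩ := exists_proj (hstab _) hW' hc
  let PP : Submodule K (Matrix ι ι K) :=
    { carrier := {p | (∀ n ∈ Nn, ρ n * p = p * ρ n) ∧ ∀ v, p *ᵥ v ∈ W}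
      add_mem' := by
        rintro a b ⟨h1, h2⟩ ⟨h3, h4⟩
        refine ⟨fun n hn => ?_, fun v => ?_⟩
        · rw [mul_add, add_mul, h1 n hn, h3 n hn]
        · rw [add_mulVec]
          exact W.add_mem (h2 v) (h4 v)
      zero_mem' := ⟨fun n _ => by rw [mul_zero, zero_mul], fun v => by
        rw [zero_mulVec]; exact W.zero_mem⟩
      smul_mem' := by
        rintro c a ⟨h1, h2⟩
        refine ⟨fun n hn => ?_, fun v => ?_⟩
        · rw [mul_smul_comm, smul_mul_assoc, h1 n hn]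
        · rw [smul_mulVec]
          exact W.smul_mem c (h2 v) }
  let KK : Submodule K (Matrix ι ι K) :=
    { carrier := {p | p ∈ PP ∧ ∀ w ∈ W, p *ᵥ w = 0}
      add_mem' := by
        rintro a b ⟨h1, h2⟩ ⟨h3, h4⟩
        refine ⟨PP.add_mem h1 h3, fun w hw => ?_⟩
        rw [add_mulVec, h2 w hw, h4 w hw, add_zero]
      zero_mem' := ⟨PP.zero_mem, fun w _ => by rw [zero_mulVec]⟩
      smul_mem' := by
        rintro c a ⟨h1, h2⟩
        refine ⟨PP.smul_mem c h1, fun w hw => ?_⟩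
        rw [smul_mulVec, h2 w hw, smul_zero] }
  set T : Module.End K (Matrix ι ι K) :=
    LinearMap.mulLeft K s * LinearMap.mulRight K s' with hTdef
  have hs's : s' * s = 1 := mul_eq_one_comm.1 hss
  have hTa : ∀ p, (∀ n ∈ Nn, ρ n * p = p * ρ n) → T p = ρ g * (p * ρ g⁻¹) := fun p hp => by
    have h1 : T p = s * (p * s') := rfl
    rw [h1, ← mul_assoc, ← mul_assoc, hTs p hp]
  have hT : T.IsSemisimple := ss_conj hSS hss hs's
  have hTv : ∀ p v, (∀ n ∈ Nn, ρ n * p = p * ρ n) →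
      T p *ᵥ v = ρ g *ᵥ (p *ᵥ (ρ g⁻¹ *ᵥ v)) := by
    intro p v hp
    rw [hTa p hp, mulVec_mulVec, mulVec_mulVec, mul_assoc]
  have hTP : ∀ p ∈ PP, T p ∈ PP := by
    rintro p ⟨h1, h2⟩
    refine ⟨fun n hn => ?_, fun v => ?_⟩
    · have hn' : g⁻¹ * n * g ∈ Nn := by
        have := hN.conj_mem n hn g⁻¹
        rwa [inv_inv] at this
      have e1 : ρ n * ρ g = ρ g * ρ (g⁻¹ * n * g) := by
        rw [← map_mul, ← map_mul]
        congr 1
        group
      have e2 : ρ (g⁻¹ * n * g) * ρ g⁻¹ = ρ g⁻¹ * ρ n := by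
        rw [← map_mul, ← map_mul]
        congr 1
        group
      rw [hTa p h1, ← mul_assoc, e1, mul_assoc (ρ g) (ρ (g⁻¹ * n * g)), ← mul_assoc _ p, h1 _ hn',
        mul_assoc p, e2]
      simp only [mul_assoc]
    · rw [hTv p v h1]
      exact hWx g _ (h2 _)
  have hTK : ∀ p ∈ KK, T p ∈ KK := by
    rintro p ⟨h1, h2⟩
    refine ⟨hTP p h1, fun w hw => ?_⟩
    rw [hTv p w h1.1, h2 _ (hWx g⁻¹ w hw), mulVec_zero]
  obtain ⟨L, hL, hcompl⟩ := (Module.End.isSemisimple_iff.1 hT) KK (fun p hp => hTK p hp)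
  have hp₀P : p₀ ∈ PP := ⟨fun n hn => hcomm₀ _ ⟨n, hn, rfl⟩, hp₀.1⟩
  obtain ⟨k, hk, l, hl, hkl⟩ : ∃ k ∈ KK, ∃ l ∈ L, k + l = p₀ := by
    have h1 : p₀ ∈ KK ⊔ L := by rw [hcompl.sup_eq_top]; exact Submodule.mem_top
    exact Submodule.mem_sup.1 h1
  have hl' : l = p₀ - k := by rw [← hkl]; abel
  have hT0 : T p₀ - p₀ ∈ KK := by
    refine ⟨PP.sub_mem (hTP _ hp₀P) hp₀P, fun w hw => ?_⟩
    rw [sub_mulVec, hTv p₀ w hp₀P.1, hp₀.2 _ (hWx g⁻¹ w hw), hp₀.2 w hw, mulVec_mulVec, hinv, one_mulVec,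
      sub_self]
  have hTl : T l = l := by
    have h1 : T l - l ∈ KK := by
      have e1 : T l - l = (T p₀ - p₀) - (T k - k) := by
        rw [hl', map_sub]
        abel
      rw [e1]
      exact KK.sub_mem hT0 (KK.sub_mem (hTK k hk) hk)
    have h2 : T l - l ∈ L := L.sub_mem (hL hl) hl
    have h3 := (Submodule.disjoint_def.1 hcompl.disjoint) _ h1 h2
    exact sub_eq_zero.1 h3
  have hlP : l ∈ PP := by
    rw [hl']
    exact PP.sub_mem hp₀P hk.1
  have hlpr : IsPr W l := by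
    refine ⟨hlP.2, fun w hw => ?_⟩
    rw [hl', sub_mulVec, hk.2 w hw, hp₀.2 w hw, sub_zero]
  have hlg : ρ g * l = l * ρ g := by
    have h1 : ρ g * (l * ρ g⁻¹) * ρ g = l * ρ g := by rw [← hTa l hlP.1, hTl]
    rwa [mul_assoc, mul_assoc, hinv', mul_one] at h1
  have hlg' : ρ g⁻¹ * l = l * ρ g⁻¹ := by
    have h1 : ρ g⁻¹ * (ρ g * (l * ρ g⁻¹)) = ρ g⁻¹ * l := by rw [← hTa l hlP.1, hTl]
    rw [← mul_assoc, hinv', one_mul] at h1
    exact h1.symm
  refine ⟨LinearMap.ker (Matrix.toLin' l), ?_, isCompl_ker hlpr⟩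
  apply hst
  · rintro _ ⟨n, hn, rfl⟩ w hw
    exact stable_ker (hlP.1 n hn) hw
  · rintro A hA w hw
    rcases hA with rfl | hA
    · exact stable_ker hlg hw
    · rw [Set.mem_singleton_iff] at hA
      subst hA
      exact stable_ker hlg' hw

end Pool.Agent.D0H98.OF
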