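import Pool.Agent.D0H89.OF.Stm3
import Pool.Agent.D0H98.OF.One

set_option autoImplicit false

/-!
# Project OF: the trace form on a centralizer
-/

namespace Pool.Agent.D0H98.OF

open Pool.Agent.D0H89.OF Matrix

theorem t_TRN : S_TRN := by
  intro ι K _ _ _ _ S hS a hcomm ha
  -- the kernel and the image
  set Ka := LinearMap.ker (Matrix.toLin' a) with hKa
  set Ia := LinearMap.range (Matrix.toLin' a) with hIa
  have hKs : Stable S Ka := fun A hA w hw => stable_ker (hcomm A hA) hw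
  have hIs : Stable S Ia := by
    rintro A hA _ ⟨v, rfl⟩
    refine ⟨A *ᵥ v, ?_⟩
    rw [Matrix.toLin'_apply, Matrix.toLin'_apply, mulVec_mulVec, mulVec_mulVec, hcomm A hA]
  obtain ⟨W', hW', hc'⟩ := hS Ka hKs
  obtain ⟨W'', hW'', hc''⟩ := hS Ia hIs
  obtain ⟨q, hq, hqc⟩ := exists_proj hIs hW'' hc''
  have hinj : ∀ w ∈ W', a *ᵥ w = 0 → w = 0 := by
    intro w hw h0
    exact (Submodule.disjoint_def.1 hc'.disjoint) w (mem_kerL.2 h0) hw
  have hex : ∀ v, ∃ w ∈ W', a *ᵥ w = q *ᵥ v := by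
    intro v
    obtain ⟨u, hu⟩ := hq.1 v
    have h1 : u ∈ Ka ⊔ W' := by rw [hc'.sup_eq_top]; exact Submodule.mem_top
    obtain ⟨k, hk, w, hw, hkw⟩ := Submodule.mem_sup.1 h1
    refine ⟨w, hw, ?_⟩
    rw [← hu, Matrix.toLin'_apply, ← hkw, mulVec_add, mem_kerL.1 hk, zero_add]
  choose w hwW hwa using hex
  let e : Matrix ι ι K := Matrix.of fun i j => w (Pi.single j 1) i
  have he : ∀ v, e *ᵥ v = ∑ j, v j • w (Pi.single j 1) := by
    intro v
    funext i
    rw [Finset.sum_apply]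
    show ∑ j, w (Pi.single j 1) i * v j = _
    refine Finset.sum_congr rfl fun j _ => ?_
    rw [Pi.smul_apply, smul_eq_mul, mul_comm]
  have heW : ∀ v, e *ᵥ v ∈ W' := by
    intro v
    rw [he]
    exact W'.sum_mem fun j _ => W'.smul_mem _ (hwW _)
  have hae : a * e = q := by
    apply mat_ext
    intro v
    rw [← mulVec_mulVec, he, mulVec_sum]
    have h1 : v = ∑ j, v j • (Pi.single j 1 : ι → K) := by
      funext i
      rw [Finset.sum_apply, Finset.sum_eq_single i]
      · simp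
      · intro j _ hj
        rw [Pi.smul_apply, Pi.single_eq_of_ne hj.symm, smul_zero]
      · intro h
        exact absurd (Finset.mem_univ i) h
    conv_rhs => rw [h1, mulVec_sum]
    refine Finset.sum_congr rfl fun j _ => ?_
    rw [mulVec_smul, mulVec_smul, hwa]
  refine ⟨e, fun A hA => ?_, ?_⟩
  · apply mat_ext
    intro v
    rw [← mulVec_mulVec, ← mulVec_mulVec, ← sub_eq_zero]
    refine hinj _ (W'.sub_mem (hW' A hA _ (heW v)) (heW _)) ?_
    have h2 : ∀ u, a *ᵥ (e *ᵥ u) = q *ᵥ u := fun u => by rw [mulVec_mulVec, hae]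
    have h1 : a *ᵥ (A *ᵥ (e *ᵥ v)) = A *ᵥ (q *ᵥ v) := by
      rw [mulVec_mulVec, ← hcomm A hA, ← mulVec_mulVec, h2]
    rw [mulVec_sub, h1, h2, mulVec_mulVec, mulVec_mulVec, hqc A hA, sub_self]
  · rw [hae]
    intro h0
    have h1 : IsIdempotentElem (Matrix.toLin' q) := by
      refine LinearMap.ext fun v => ?_
      rw [Module.End.mul_apply, Matrix.toLin'_apply, Matrix.toLin'_apply, hq.2 _ (hq.1 v)]
    have h2 : LinearMap.trace K (ι → K) (Matrix.toLin' q) = 0 := by
      rw [Matrix.trace_toLin'_eq, h0]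
    have h3 := (LinearMap.IsIdempotentElem.trace_eq_zero_iff h1).1 h2
    apply ha
    apply mat_ext
    intro v
    rw [zero_mulVec]
    have h4 : a *ᵥ v ∈ Ia := ⟨v, Matrix.toLin'_apply a v⟩
    rw [← hq.2 _ h4, ← Matrix.toLin'_apply q, h3]
    rfl

end Pool.Agent.D0H98.OF
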